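import Mathlib
import Pool.Agent.H852.QP.Neg

set_option autoImplicit false

/-!
# Negative curves have no large near-uniform part

There is an `N` such that for all `s` and very general points `P 1, …, P s` of the complex
projective plane the following holds. Let `C` be the strict transform of an irreducible plane curve
of degree `d` with multiplicities `μ i` at the points. If the multiplicities at `t ≥ N` of the
points (the set `T`) are all equal to `m` or `m + 1`, where `1 ≤ m ≤ exp ((log t) ^ 2 / 64)`, then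
`C ^ 2 = d ^ 2 - ∑ μ i ^ 2 ≥ (∑_{i ∈ T} μ i) / 2 - ∑_{i ∉ T} μ i ^ 2`.
In particular `C ^ 2 < 0` is impossible if `2 ∑_{i ∉ T} μ i ^ 2 ≤ ∑_{i ∈ T} μ i`.
-/

namespace Pool.Agent.Results.MP_d3e5c7_ag.NearUniformPart

open MvPolynomial

/-- The homogeneous ideal of the point `(p 0 : p 1 : 1)`. -/
noncomputable def ptIdeal (p : Fin 2 → ℂ) : Ideal (MvPolynomial (Fin 3) ℂ) :=
  Ideal.span ({X 0 - C (p 0) * X 2, X 1 - C (p 1) * X 2} : Set (MvPolynomial (Fin 3) ℂ))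

/-- The curve `F = 0` has multiplicity `m` at the point `(p 0 : p 1 : 1)`. -/
def HasMult (F : MvPolynomial (Fin 3) ℂ) (p : Fin 2 → ℂ) (m : ℕ) : Prop :=
  F ∈ ptIdeal p ^ m ∧ F ∉ ptIdeal p ^ (m + 1)

/-- The self-intersection of the class `d H - ∑ μ i E i`. -/
noncomputable def selfInt {s : ℕ} (d : ℕ) (μ : Fin s → ℕ) : ℝ :=
  (d : ℝ) ^ 2 - ∑ i, (μ i : ℝ) ^ 2

theorem result : ∃ N : ℕ, ∀ s : ℕ,
    ∃ G : ℕ → MvPolynomial (Fin s × Fin 2) ℂ, (∀ j, G j ≠ 0) ∧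
      ∀ P : Fin s → Fin 2 → ℂ,
        (∀ j, MvPolynomial.eval (fun ij : Fin s × Fin 2 => P ij.1 ij.2) (G j) ≠ 0) →
        ∀ (d : ℕ) (μ : Fin s → ℕ) (F : MvPolynomial (Fin 3) ℂ), Irreducible F →
          F.IsHomogeneous d → (∀ i, HasMult F (P i) (μ i)) →
          ∀ T : Finset (Fin s), N ≤ T.card → ∀ m : ℕ, 0 < m →
            (m : ℝ) ≤ Real.exp (Real.log T.card ^ 2 / 64) → (∀ i ∈ T, μ i = m ∨ μ i = m + 1) →
            (∑ i ∈ T, (μ i : ℝ)) / 2 - ∑ i ∈ Tᶜ, (μ i : ℝ) ^ 2 ≤ selfInt d μ ∧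
              (2 * ∑ i ∈ Tᶜ, (μ i : ℝ) ^ 2 ≤ ∑ i ∈ T, (μ i : ℝ) → ¬ selfInt d μ < 0) := by
  classical
  obtain ⟨N, hN⟩ := Pool.Agent.H852.QP.strong_nagataQ
  refine ⟨N, fun s => ?_⟩
  obtain ⟨G, hG, hG'⟩ := Pool.Agent.H852.QP.exists_familyQ (Fin s × Fin 2)
  refine ⟨G, hG, fun P hP d μ F hirr hFd hmu T hT m hm hmX hw => ?_⟩
  have hind := hG' _ hP
  let e : T ≃ Fin T.card := T.equivFin
  let f : Fin T.card × Fin 2 → Fin s × Fin 2 := fun q => ((e.symm q.1 : T), q.2)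
  have hf : Function.Injective f := by
    rintro ⟨a, b⟩ ⟨a', b'⟩ h
    have h1 : ((e.symm a : T) : Fin s) = (e.symm a' : T) := congrArg Prod.fst h
    have h2 : b = b' := congrArg Prod.snd h
    have h3 := e.symm.injective (Subtype.ext h1)
    rw [h2, h3]
  have hind' := hind.comp f hf
  have h1 := hN T.card hT m hm hmX (fun a => P (e.symm a : T)) hind'
    (fun a => μ (e.symm a : T)) (fun a => hw _ (e.symm a).2) d F hFd hirr.ne_zero
    (fun a => (hmu _).1)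
  have e1 : ∀ g : ℕ → ℝ, ∑ a : Fin T.card, g (μ (e.symm a : T)) = ∑ i ∈ T, g (μ i) := by
    intro g
    rw [← Finset.sum_coe_sort T (fun i => g (μ i))]
    exact Equiv.sum_comp e.symm (fun i : T => g (μ i))
  have e2 := e1 (fun z => (z : ℝ) ^ 2)
  have e3 := e1 (fun z => (z : ℝ))
  rw [e2, e3] at h1
  have e4 : ∑ i, (μ i : ℝ) ^ 2 = ∑ i ∈ T, (μ i : ℝ) ^ 2 + ∑ i ∈ Tᶜ, (μ i : ℝ) ^ 2 :=
    (Finset.sum_add_sum_compl T _).symm
  have h2 : (∑ i ∈ T, (μ i : ℝ)) / 2 - ∑ i ∈ Tᶜ, (μ i : ℝ) ^ 2 ≤ selfInt d μ := by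
    unfold selfInt
    rw [e4]
    linarith
  exact ⟨h2, fun h3 => by linarith⟩

end Pool.Agent.Results.MP_d3e5c7_ag.NearUniformPart
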